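import Pool.Agent.H87.EBK.Stmts3

set_option autoImplicit false

namespace Pool.EBK

/-- Row DNAW of board `ebt`; the proof is that of `Pool/Agent/H72/EBS/DNA.lean` (helper72). -/
theorem dnaw (hTRI : TRI) (hADD : ADD) (hVAD : VAD) (hVAH : VAH) (hBIG : BIGW) (hSTU : STU)
    (hSTL : STL) (hDWN : DWN) : DNAW := by
  intro a b c0 y1 y2 t hab hR ht hT hv hy1 hy12 hy2
  have ha : 0 < a := hR.1
  have hb : 0 < b := hR.2.1
  have hc0 : 0 < c0 := hT.1
  have hd : 0 < y2 - y1 := by linarith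
  set K : ℚ := c0 * b ^ 2 + (c0 + a) * (c0 + b) with hK
  have hKpos : 0 < K := by positivity
  obtain ⟨c', hT', hB, hv1, hv2, hv3⟩ :=
    hBIG a b (max 1 (K / (y2 - y1))) (min t (v a + v b - t)) hR
  have hc1 : 1 < c' := lt_of_le_of_lt (le_max_left _ _) hB
  have hc2 : K / (y2 - y1) < c' := lt_of_le_of_lt (le_max_right _ _) hB
  have hc'0 : 0 < c' := by linarith
  have hKc : K / c' < y2 - y1 := by
    rw [div_lt_iff₀ hd] at hc2
    rw [div_lt_iff₀ hc'0]
    linarith
  obtain ⟨u', w', hTri'⟩ := (hTRI a b c' ha hb).1 hT'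
  have hu' : 0 < u' := hTri'.2.1
  have hw' : 0 < w' := hTri'.2.2.1
  have hvt : v c' < t := lt_of_lt_of_le hv1 (min_le_left _ _)
  have hvs : v c' < v a + v b - t := lt_of_lt_of_le hv1 (min_le_right _ _)
  have hδ : 0 < a ^ 2 * b * w' / (c' * w' * (a + c0) + c0 * (b + c0) * u') := by positivity
  obtain ⟨c, ⟨h1, h2⟩, h3, h4⟩ := hDWN (fun c => Third a b c ∧ v c = t) c0 y1 y2 _ ⟨hT, hv⟩ hy12 hy2
    hδ (by
      rintro c ⟨hTc, hvc⟩ hcy hcc
      obtain ⟨u, w, hTri⟩ := (hTRI a b c ha hb).1 hTc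
      have hc : 0 < c := hTri.1
      have hu : 0 < u := hTri.2.1
      have hw : 0 < w := hTri.2.2.1
      have hM : 0 < MU c u w c' u' w' := by
        unfold MU
        positivity
      have hup := hSTU a b c u w c' u' w' c0 ha hab hTri hTri' hcc hc1.le
      have hlo := hSTL a b c u w c' u' w' c0 ha hab hTri hTri' hcc hc1.le
      rw [← hK] at hup
      have hnew : y1 < NU a c u w c' u' w' / MU c u w c' u' w' := by linarith
      have hN : 0 < NU a c u w c' u' w' := by
        have h5 : 0 < NU a c u w c' u' w' / MU c u w c' u' w' := by linarith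
        exact (div_pos_iff_of_pos_right hM).1 h5
      refine ⟨NU a c u w c' u' w' / MU c u w c' u' w',
        ⟨(hADD a b c u w c' u' w' ha hb hTri hTri' hN).2, ?_⟩, hnew, by linarith⟩
      rcases ht with ⟨h5, h6⟩ | ⟨h5, h6⟩
      · rw [hVAD a b c u w c' u' w' ha hb hTri hTri' (by rw [hvc]; exact h5)
          (by rw [hvc]; exact h6) (by rw [hvc]; exact hvt) hN]
        exact hvc
      · rw [hVAH a b c u w c' u' w' ha hb hTri hTri' (by rw [hvc]; exact h5)
          (by rw [hvc]; exact h6) hv2 hv3 (by rw [hvc]; linarith) hN]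
        exact hvc)
  exact ⟨c, h1, h2, h3, h4⟩

end Pool.EBK
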